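import Pool.Agent.P.MP_be2783_al.H.Grp
import Pool.Agent.P.MP_be2783_al.H.Fin

/-! The dihedral groups that are a section of a factor whenever they are a section of a product. -/

set_option autoImplicit false

namespace Pool.Agent.Results.MP_be2783_al.AllDihedral

open Pool.Agent.P.MP_be2783_al.H

theorem result (n : ℕ) : List.TFAE
    [∀ (A B : Type) [Group A] [Group B], IsSection (DihedralGroup n) (A × B) →
      IsSection (DihedralGroup n) A ∨ IsSection (DihedralGroup n) B,
    ∀ (A B : Type) [Group A] [Group B], Group.IsSolvable A → Group.IsSolvable B →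
      (∃ x y : A, Subgroup.closure ({x, y} : Set A) = ⊤) →
      (∃ x y : B, Subgroup.closure ({x, y} : Set B) = ⊤) → IsSection (DihedralGroup n) (A × B) →
      IsSection (DihedralGroup n) A ∨ IsSection (DihedralGroup n) B,
    n ≤ 1 ∨ (n.Prime ∧ Odd n)] := by
  tfae_have 1 → 2 := fun h A B _ _ _ _ _ _ => h A B
  tfae_have 3 → 1 := by
    rintro (h | ⟨h, ho⟩) A B _ _ hs
    · rcases Nat.le_one_iff_eq_zero_or_eq_one.1 h with rfl | rfl
      · exact descend (n := 0) (by decide) hs
      · exact descend_one hs
    · have := Fact.mk h
      refine descend (fun h2 => ?_) hs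
      have h3 : ((2 : ℕ) : ZMod n) = 0 := by exact_mod_cast h2
      rw [ZMod.natCast_eq_zero_iff, Nat.prime_dvd_prime_iff_eq h Nat.prime_two] at h3
      subst h3
      exact absurd ho (by decide)
  tfae_have 2 → 3 := by
    intro h
    have key : ∀ (A B : Type) [Group A] [Group B], Group.IsSolvable A → Group.IsSolvable B →
        IsSection (DihedralGroup n) (A × B) →
        IsSection (DihedralGroup n) A ∨ IsSection (DihedralGroup n) B := by
      intro A B _ _ _ _ hs
      obtain ⟨a, a', b, b', h1⟩ := reduce hs
      exact (h _ _ inferInstance inferInstance (two_gen a a') (two_gen b b') h1).imp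
        (IsSection.sub _) (IsSection.sub _)
    by_contra hc
    rw [not_or, not_le, not_and] at hc
    obtain ⟨h1, h2⟩ := hc
    rcases Nat.even_or_odd' n with ⟨k, rfl | hk⟩
    · have hk : 0 < k := by omega
      have : NeZero k := ⟨hk.ne'⟩
      rcases key _ _ (solv_quat k) inferInstance (sec_quat k) with h3 | h3
      · exact no_sec_inv h1 (by rw [Nat.card_eq_fintype_card, QuaternionGroup.card]; omega) _
          (quat_inv hk) h3
      · exact no_sec_inv h1 (by rw [Nat.card_eq_fintype_card]; simp; omega)
          (Multiplicative.ofAdd 2) (by decide) h3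
    · have ho : Odd n := ⟨k, hk⟩
      have hp : n.minFac.Prime := Nat.minFac_prime (by omega)
      obtain ⟨m, hm⟩ := n.minFac_dvd
      generalize n.minFac = p at hp hm
      subst hm
      have hm1 : 1 < m := by
        rcases m with _ | _ | m
        · omega
        · exact absurd ho (h2 (by simpa using hp))
        · omega
      by_cases hpm : p ∣ m
      · have := Fact.mk hpm
        have := solv_amb (p := p) (m := m)
        rcases key _ _ inferInstance inferInstance (sec_prod p m) with h3 | h3
        · exact no_sec_A hp ho h3
        · exact no_sec_B hp.one_lt ho h3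
      · have := hp.one_lt
        rcases key _ _ (solv_dih p) (solv_dih m) (sec_coprime (hp.coprime_iff_not_dvd.2 hpm)) with
          h3 | h3
        · exact no_sec_small hp.pos (by nlinarith) h3
        · exact no_sec_small (by omega) (by nlinarith) h3
  tfae_finish

end Pool.Agent.Results.MP_be2783_al.AllDihedral
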